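import Mathlib

namespace Pool.Agent.Results.MP_3553b5_co.Q1

/-- The Hamming-distance graph `H_q(n,d)`. -/
def HG (q n d : ℕ) : SimpleGraph (Fin n → ZMod q) where
  Adj x y := x ≠ y ∧ d ≤ hammingDist x y
  symm := ⟨fun x y h => ⟨h.1.symm, by rw [hammingDist_comm]; exact h.2⟩⟩
  loopless := ⟨fun _ h => h.1 rfl⟩

def Proper {V C : Type} (G : SimpleGraph V) (K : V → C) : Prop :=
  ∀ u v, G.Adj u v → K u ≠ K v

/-- `xy` is a transition edge: exchanging the two colours gives a proper colouring. -/
def Transition {V C : Type} [DecidableEq V] (G : SimpleGraph V) (K : V → C) (x y : V) : Prop :=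
  G.Adj x y ∧ Proper G (fun v => if v = x then K y else if v = y then K x else K v)

def code : List ℕ := [553,723,117,34,232,67,278,16,17,484,286,262,318,141,697,599,524,579,92,409,
  638,408,135,48,361,468,83,241,101,251,387,410,367,466,612,15,170,401,379,452,203,180,134,435,
  674,144,74,5,28,658,176,306,681,456,230,463,109,640,704,291,564,257,509,486,538,690,351,422,
  364,103,348,190,138,534,247,194,305,544,574]

def dd (a : Fin 3) (c : ℕ) : ℕ := if a.val = c % 3 then 0 else 1

theorem cov : ∀ a b c d e f : Fin 3, code.any (fun w => dd a w + dd b (w / 3) + dd c (w / 9) +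
    dd d (w / 27) + dd e (w / 81) + dd f (w / 243) ≤ 1) = true := by decide +kernel

def word (w : ℕ) : Fin 6 → ZMod 3 := fun i => ((w / 3 ^ i.val : ℕ) : ZMod 3)

theorem dd_eq (a : ZMod 3) (c : ℕ) : (if a ≠ (c : ZMod 3) then 1 else 0) = dd a c := by
  unfold dd
  have : a = (c : ZMod 3) ↔ (show Fin 3 from a).val = c % 3 := by
    rw [← ZMod.val_natCast]
    exact ⟨fun h => congrArg ZMod.val h, fun h => ZMod.val_injective 3 h⟩
  by_cases h : a = (c : ZMod 3)
  · rw [if_neg (not_not.2 h), if_pos (this.1 h)]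
  · rw [if_pos h, if_neg (fun e => h (this.2 e))]

theorem cover (x : Fin 6 → ZMod 3) : ∃ i : Fin 79, hammingDist x (word (code.getD i 0)) ≤ 1 := by
  obtain ⟨w, hw, h⟩ := List.any_eq_true.1 (cov (x 0) (x 1) (x 2) (x 3) (x 4) (x 5))
  obtain ⟨i, hi, rfl⟩ := List.getElem_of_mem hw
  refine ⟨⟨i, hi⟩, ?_⟩
  rw [List.getD_eq_getElem _ _ hi, hammingDist, Finset.card_filter, Fin.sum_univ_six]
  rw [decide_eq_true_eq] at h
  simp only [← dd_eq] at h
  simp only [word]
  convert h using 7 <;> simp

theorem result : ∃ q n d : ℕ, 3 ≤ q ∧ 2 ≤ d ∧ d ≤ n ∧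
    ∃ K : (Fin n → ZMod q) → Fin (q ^ (n - d + 1)), Proper (HG q n d) K ∧
      ∃ x y, Transition (HG q n d) K x y := by
  refine ⟨3, 6, 3, le_rfl, by norm_num, by norm_num, ?_⟩
  choose c hc using cover
  have key : ∀ (x y : Fin 6 → ZMod 3), x ≠ y → ∀ a b : Fin 81, a ≠ b → 79 ≤ a.val → 79 ≤ b.val →
      Proper (HG 3 6 3) (fun v => if v = x then a else if v = y then b else
        (Fin.castLE (by norm_num) (c v) : Fin 81)) := by
    intro x y hxy a b hab ha hb u v huv h
    have hne := huv.1
    have h1 := (c u).2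
    have h2 := (c v).2
    simp only at h
    split_ifs at h with e1 e2 e3 e4 e5 e6 e7 e8
    · exact hne (e1.trans e2.symm)
    · exact hab h
    · rw [h] at ha; simp at ha; omega
    · exact hab h.symm
    · exact hne (e4.trans e6.symm)
    · rw [h] at hb; simp at hb; omega
    · rw [← h] at ha; simp at ha; omega
    · rw [← h] at hb; simp at hb; omega
    · have e := Fin.castLE_injective _ h
      have t := hammingDist_triangle_right u v (word (code.getD (c u) 0))
      have p := hc u
      have q := hc v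
      rw [← e] at q
      have := huv.2
      omega
  have h01 : (0 : Fin 6 → ZMod 3) ≠ 1 := by decide
  refine ⟨_, key 0 1 h01 79 80 (by decide) (by decide) (by decide), 0, 1, ⟨h01, by decide⟩, ?_⟩
  convert key 0 1 h01 80 79 (by decide) (by decide) (by decide) using 1
  · rfl
  funext v
  by_cases e1 : v = 0
  · simp [e1, h01.symm]
  · by_cases e2 : v = 1 <;> simp [e1, e2]

end Pool.Agent.Results.MP_3553b5_co.Q1
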